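import Pool.Agent.X271.TiThm

/-!
# The monodromy conjecture, modulo integers, for nondegenerate ideals and compositions

Let `I = (f_1, …, f_P)` be an ideal of `ℂ[x_1, …, x_N]` and `g = ∑_j u_j f_j`. We prove: if `g`, or more
generally `g + y_1 z_1 + ⋯ + y_k z_k` after an automorphism of the polynomial ring, is nondegenerate with
respect to its Newton polytope, then for every pole `s0` of the topological zeta function `Z_I`
(`s0 ≠ -1` if `k = 0`) there is `i ∈ ℕ` with `b_I(s0 - i) = 0`, and the order of the pole is at most the
sum of the multiplicities of these roots. So this is Q1 (and Q2) modulo integers. There is no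
condition on the dimension, on the singularities, and on the facets of the Newton polyhedron.

For `k = 0` these are the ideals whose generators are nondegenerate (for every face and every subset of the
generators the face parts have linearly independent differentials at their common zeros in the
torus). For `k > 0` one gets ideals generated by compositions
`f_j(x) = Φ_j(x, p_1(x), …, p_k(x))` of nondegenerate systems (second part), for example by products of powers
of the members `p_i` of a nondegenerate system; they are in general degenerate in all coordinates.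
The third part is the local version at the origin, where only the compact faces are considered, in
formal coordinates.

Method. By one half of a theorem of Mustata a functional equation of `f_1, …, f_P` with `b` gives one
of `g = ∑_j u_j f_j`, with `(s + 1) b(s)`, and then one of `G = g + ∑ y_i z_i` with `(s + 1) b(s + k)`. For the
nondegenerate `G` it is deformed to very general coefficients (Kouchnirenko's theorem, starting
library), and the relation obtained gives the polar part of `Z_G`. Finally `Z_I(s) = (s + 1) Z_g(s)` and
`1 - Z_g(s) = (1 - Z_G(s - k)) s (s - k + 1) / ((s - k) (s + 1))`.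
-/

set_option autoImplicit false

namespace Pool.Agent.Results.MP_ee8c61_ag.NondegenerateIdeals

open Polynomial
open Pool.Agent.W425.SM (sparse SmoothFan Principal)
open Pool.Agent.W422.GC (topZetaG topZetaGLocal)
open Pool.Agent.W425.ND (Nondeg)
open Pool.Agent.Y229.CF (NondegC)
open Pool.Agent.W574.SM (IsFunctionalEq)
open Pool.Agent.W749.JI (IsLocalBIdeal)
open Pool.Agent.X271.TwD (BecomesG BecomesL unstab)
open Pool.Agent.X271.TiD (OrdersI usum xsum part expI)

/-- **The monodromy conjecture modulo integers, with orders, for nondegenerate ideals and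
compositions.**

`OrdersI b k Z` says that for some `K` the function
`(s - k) ∏_{i ≤ K} (s - k - i + 1) b(s - i) Z(s)` is a polynomial. So for every pole `s0` of `Z` with negative
real part (all the poles of `Z_I` are negative rational numbers), `s0 ≠ -1` if `k = 0`, there is `i ∈ ℕ`
with `b(s0 - i) = 0`, and the order of the pole is at most the sum of the multiplicities of these
roots.

(1) Let `f_1, …, f_P ∈ ℂ[x_1, …, x_N]`, not all zero, and let `g + ∑_{i ≤ k} y_i z_i`,
`g = ∑_j u_j f_j` (`usum f`), become by an automorphism of the polynomial ring (`BecomesG`) the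
polynomial `G = ∑_j a_j X ^ (v_j)`, `v_j ≠ 0` distinct, which is nondegenerate with respect to its
Newton polytope (`Nondeg`: for every face the face polynomial and its derivatives have no common
zero in the torus). Then `OrdersI b k Z_I` for every `b` with `IsFunctionalEq f b` (the functional
equation in the definition of `b_I`; `b_I` is the monic one of least degree of these polynomials).
Here `Z_I(s) = (s + 1) Z_g(s)`, `Z_g = unstab k 1 Z_G` is given by
`1 - Z_g(s) = (1 - Z_G(s - k)) s (s - k + 1) / ((s - k) (s + 1))`, and `Z_G = topZetaG v R` is the global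
topological zeta function of `G` on the toric resolution of any smooth fan `R` on which the ideal of
the monomials is principal.

(2) Let exponents `m_j` of monomials in `x_1, …, x_N, z_1, …, z_k` be given in groups
`π j ∈ {1, …, k + P}` (distinct in each group), `l_i = part π m a i = ∑_{π j = i} a_j X ^ (m_j)`, `i ≤ k`, and
`Φ_j = part π m a (k + j)`, `j ≤ P`, let `l_i = c_i z_i - p_i(x)`, `c_i ≠ 0`, and let
`f_j(x) = Φ_j(x, p_1(x) / c_1, …, p_k(x) / c_k)`, not all zero. If `G = ∑_j u_j Φ_j + ∑_i y_i l_i` (a
polynomial in `u, x; y, z` with the exponents `expI π m`) is nondegenerate with respect to its Newton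
polytope, then `OrdersI b k Z_I` as in (1).

(3) Local version at the origin: the same as (1) for polynomials `f_j` such that `∑_j u_j f_j(x)`
(`xsum f`, variables `x, u`) plus `∑ y_i z_i` becomes in formal coordinates at the origin, up to a unit
factor (`BecomesL`), a polynomial `G` which is nondegenerate for the compact faces of its Newton
polyhedron (`NondegC`), for the local topological zeta functions (`topZetaGLocal v R`: that of `G` at
the origin; `Z_{I,0}(s) = (s + 1) Z_{g,0}(s)`) and for every `b` with `IsLocalBIdeal f b` (the functional
equation of Budur, Mustata and Saito with formal power series coefficients). -/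
theorem result :
    (∀ {N k P r : ℕ}, 1 ≤ r → ∀ (v : Fin r → Fin ((P + N) + (k + k)) → ℕ) (a : Fin r → ℂ),
      Function.Injective v → (∀ j, v j ≠ 0) → Nondeg v a →
      ∀ f : Fin P → MvPolynomial (Fin N) ℂ, (∃ j, f j ≠ 0) → BecomesG (usum f) k (sparse v a) →
      ∀ b : ℂ[X], IsFunctionalEq f b →
      ∀ R : SmoothFan ((P + N) + (k + k)), Principal v R →
        OrdersI b k ((RatFunc.X + 1) * unstab k 1 (topZetaG v R))) ∧
    (∀ {N k P r : ℕ}, 1 ≤ r → ∀ (π : Fin r → Fin (k + P)) (m : Fin r → Fin (N + k) → ℕ),
      (∀ j j', π j = π j' → m j = m j' → j = j') → ∀ a : Fin r → ℂ, Nondeg (expI π m) a →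
      ∀ (c : Fin k → ℂ) (p : Fin k → MvPolynomial (Fin N) ℂ), (∀ i, c i ≠ 0) →
        (∀ i : Fin k, part π m a (Fin.castAdd P i) = MvPolynomial.C (c i) *
          MvPolynomial.X (Fin.natAdd N i) - MvPolynomial.rename (Fin.castAdd k) (p i)) →
      ∀ f : Fin P → MvPolynomial (Fin N) ℂ, (∀ j, f j = MvPolynomial.aeval
        (Fin.append MvPolynomial.X fun i => MvPolynomial.C (c i)⁻¹ * p i)
          (part π m a (Fin.natAdd k j))) → (∃ j, f j ≠ 0) →
      ∀ b : ℂ[X], IsFunctionalEq f b →
      ∀ R : SmoothFan ((P + N) + (k + k)), Principal (expI π m) R →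
        OrdersI b k ((RatFunc.X + 1) * unstab k 1 (topZetaG (expI π m) R))) ∧
    (∀ {N k P r : ℕ}, 1 ≤ r → ∀ (v : Fin r → Fin ((N + P) + (k + k)) → ℕ) (a : Fin r → ℂ),
      Function.Injective v → (∀ j, v j ≠ 0) → NondegC v a →
      ∀ f : Fin P → MvPolynomial (Fin N) ℂ, (∃ j, f j ≠ 0) →
        BecomesL (xsum f : MvPowerSeries (Fin (N + P)) ℂ) k (sparse v a) →
      ∀ b : ℂ[X], IsLocalBIdeal f b →
      ∀ R : SmoothFan ((N + P) + (k + k)), Principal v R →
        OrdersI b k ((RatFunc.X + 1) * unstab k 1 (topZetaGLocal v R))) := by
  refine ⟨?_, ?_, ?_⟩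
  · intro N k P r hr v a hv hv0 hnd f hf hB b hb R hR
    exact Pool.Agent.X271.TiT.ideal_nd hr v a hv hv0 hnd f hf hB b hb R hR
  · intro N k P r hr π m hinj a hnd c p hc hl f hf hf0 b hb R hR
    have he := Pool.Agent.X271.TiT.expI_eq π m
    rw [← he] at hnd hR ⊢
    exact Pool.Agent.X271.TiT.ideal_cmp hr π m hinj a hnd c p hc hl f hf hf0 b hb R hR
  · intro N k P r hr v a hv hv0 hnd f hf hB b hb R hR
    exact Pool.Agent.X271.TiT.ideal_loc hr v a hv hv0 hnd f hf hB b hb R hR

end Pool.Agent.Results.MP_ee8c61_ag.NondegenerateIdeals
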