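import Pool.Agent.X159.QI.Main

/-!
# The strong monodromy conjecture for ideals: reduction to linear polynomials and binomials

Let `I = (f_j)` be an ideal of `ℂ[x_1, …, x_N]` and let `u` be a new variable. The ideal
`I' = (f_j, u)` of `ℂ[x, u]` (and its images under automorphisms, with any other generators) has the
topological zeta function `Z_{I'}(s) = (1 + s Z_I(s + 1)) / (s + 1)` and the Bernstein-Sato polynomial
`b_{I'}(s) = b_I(s + 1)`; so both questions for `I'` imply those for `I`. After the substitution
`u ↦ u - g(x)` and the replacement of `f_j` by `f_j + a(x) (u - g(x))`, with `g = x_a x_b`, monomials of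
`f_j` which are divisible by `x_a x_b` get a smaller degree. Repeating this, one gets an ideal which is
generated by polynomials of degree at most `1` and by binomials `x_c - x_a x_b`.

So both questions, for all nonzero proper ideals, are equivalent to the same questions for the ideals
generated by such polynomials, in particular for ideals generated by polynomials of degree at most `2`
(also over every subfield of `ℂ`).

The topological zeta function is defined as by Denef and Loeser, from the motivic zeta function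
`Z_mot(T) = ∑_d [X_d] 𝕃 ^ (-n d) T ^ d`, `X_d` the `d`-jets on which the ideal has the order `d` (`zetaId`):
`Z_I(s) = χ(Z_mot(𝕃 ^ (-s)))` for `s = 1, 2, 3, …` (`IsTopZeta`), where `χ = ε ∘ E`, `E` is a homomorphism
to a domain with `E(𝕃) ≠ 1` and `ε(E(𝕃)) = 1` (such as the Hodge-Deligne polynomial and `u, v ↦ 1`).
-/

set_option autoImplicit false

namespace Pool.Agent.Results.MP_ee8c61_ag.QuadraticIdeals

open MvPolynomial Pool.Agent.W428.MOT Pool.Agent.TH192.MU Pool.Agent.W574.SM Pool.Agent.X159.TZ
  Pool.Agent.X159.QI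

/-- **Reduction of the strong monodromy conjecture for ideals to ideals generated by polynomials of
degree `≤ 1` and binomials `x_c - x_a x_b`.**

`PRoots Z b`: all poles of `Z` are roots of `b` (Q1); `POrders Z b`: `b Z` is a polynomial (Q2).
`IdP E ε P f`: the property `P` of the topological zeta function of the ideal `(f_j)` and of all
polynomials `b` with a functional equation of the `f_j` (so of `b_I`).
`nf f j a g`: the generators `f_i`, with `f_j + a (u - g)` in the place of `f_j`, and `u - g`.
`stI 1 Z = (1 + s Z(s + 1)) / (s + 1)`. -/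
theorem result (R : Type) [CommRing R] [IsDomain R] (E : MK ℂ →+* R) (ε : R →+* ℂ)
    (hε : ε (E ((Lu ℂ : (MK ℂ)ˣ) : MK ℂ)) = 1) (hE : E ((Lu ℂ : (MK ℂ)ˣ) : MK ℂ) ≠ 1) :
    (∀ P : RatFunc ℂ → Polynomial ℂ → Prop, P = PRoots ∨ P = POrders →
      ∀ (k : Type) [Field k] [Algebra k ℂ],
        (∀ (σ ι : Type) [Fintype σ] [Fintype ι] (f : ι → MvPolynomial σ k),
          Ideal.span (Set.range f) ≠ ⊥ → Ideal.span (Set.range f) ≠ ⊤ →
            IdP E ε P (fun i => map (algebraMap k ℂ) (f i))) ↔
        ∀ (σ ι : Type) [Fintype σ] [Fintype ι] (f : ι → MvPolynomial σ k),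
          Ideal.span (Set.range f) ≠ ⊥ → Ideal.span (Set.range f) ≠ ⊤ →
            (∀ i, (f i).totalDegree ≤ 1 ∨ ∃ a b c : σ, f i = X c - X a * X b) →
              IdP E ε P (fun i => map (algebraMap k ℂ) (f i))) ∧
    ∀ (σ ι : Type) [Fintype σ] [Fintype ι] [DecidableEq ι] (f : ι → MvPolynomial σ ℂ) (j : ι)
      (a g : MvPolynomial σ ℂ),
      (∀ Z, IsTopZeta E ε (zetaId f) Z → IsTopZeta E ε (zetaId (nf f j a g)) (stI 1 Z)) ∧
      ((∃ i, f i ≠ 0) → ∀ b, IsFunctionalEq f b →
        IsFunctionalEq (nf f j a g) (b.comp (Polynomial.X + 1))) ∧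
      ∀ P : RatFunc ℂ → Polynomial ℂ → Prop, P = PRoots ∨ P = POrders → (∃ i, f i ≠ 0) →
        IdP E ε P (nf f j a g) → IdP E ε P f := by
  have hd : ∀ P : RatFunc ℂ → Polynomial ℂ → Prop, P = PRoots ∨ P = POrders → DescI P := by
    rintro P (rfl | rfl)
    · exact descI_roots
    · exact descI_orders
  refine ⟨fun P hP k _ _ => ideal_red hε hE (hd P hP) k, fun σ ι _ _ _ f j a g =>
    ⟨fun Z hZ => top_nf hε hE f j a g hZ, fun hf b hb => fe_step j a g f hf hb,
      fun P hP hf h => idP_step hε hE (hd P hP) f hf j a g h⟩⟩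

end Pool.Agent.Results.MP_ee8c61_ag.QuadraticIdeals
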