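import Pool.Agent.X303.MC.TopMixed

set_option autoImplicit false

/-! # The stronger form for ideals: one condition for every value of `-(k + 1) / a`

Let `I = (f_j)` be an ideal of `ℂ[x_i]` and let `Y → ℂ ^ N` be a log resolution of `I`, with the
divisors `E_i`, `a_i = ord_{E_i} I`, `k_i = ord_{E_i} K`. The ideal defines a morphism from `Y` to
the blow-up of `I`, which is a subvariety of `ℂ ^ N × ℙ ^ (r - 1)`.

The starting result `ReesStrata` says that `b_I(s) Z_I(s)` is a polynomial if every stratum with
`χ(E_S°) ≠ 0` has in its closure a point at which the morphism from `Y` to the blow-up of `I` is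
unramified; `ReesDivisors` says that a single Rees divisor gives a root. Here the two are joined and
refined: the condition is made separately for every value `s₀`, and only for the divisors of the
stratum with `-(k_i + 1) / a_i = s₀` (`Seen`):

* if there is exactly one of them then it is enough that its number comes from a Rees divisor
  (of `I`; it need not be this divisor itself);
* if there are several then their intersection has to contain a visible point, which may lie
  outside the closure of the stratum, since the other divisors of the stratum need not pass through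
  it.

So the order of the pole `s₀` of `Z_I` is at most the multiplicity of the root `s₀` of `b_I`, and if
this holds for all `s₀` then `b_I(s) Z_I(s)` is a polynomial. For instance the stronger form (Q2)
holds for every ideal with a log resolution whose divisors (with `a_i > 0`, in a stratum with
`χ(E_S°) ≠ 0`) are Rees divisors such that those which meet have different numbers
`-(k_i + 1) / a_i`. -/

namespace Pool.Agent.Results.MP_ee8c61_ag.ReesStrataMixed

open Pool.Agent.W574.SM Pool.Agent.W574.HS Pool.Agent.Y230.RS Pool.Agent.X303.MC

/-- **Orders of poles and the stronger form (Q2).** Let `b` satisfy a functional equation of the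
ideal `(f_j)`, for instance `b = b_I`, and let `Z = topZeta a k χ` be the topological zeta function
`∑_S χ S ∏_{i ∈ S} 1 / (a_i s + k_i + 1)`, with any integers `χ S` (the Euler characteristics of the
strata `E_S°`).
(1) Let `s₀` be a complex number such that for every `S` with `χ S ≠ 0` the set of the `i ∈ S` with
`a i > 0` and `a_i s₀ + k_i + 1 = 0` is `Seen`. If `b ≠ 0`, the order of the pole `s₀` of `Z` is at
most the multiplicity of `s₀` as a root of `b`.
(2) If this is so for all `s₀`, then `b(s) Z(s)` is a polynomial.

`Seen f a k S'` says that the divisors `E_i`, `i ∈ S'`, pass through a visible point (`X_{e(i)} = 0` being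
the equation of `E_i` there), or that `S'` has at most one element and its number comes from a Rees
divisor of the ideal (`FromRees`: `(k_i + 1) / a_i = (k_E + 1 + l) / a_E` for a Rees divisor `E`, where
`l < a_E` is the order along `E` of a polynomial, for instance `1`). `PointChart f` is a formal chart
at a point `p` of `Y`: power series `ξ i` in formal coordinates `X t` such that the Jacobian
determinant is `∏ X_t ^ k_t` times a unit and the ideal becomes `(∏ X_t ^ a_t)`. `p.IsVisible` says that
for every coordinate `X t` some regular function `(∑_j c_j(x) f_j(x)) / f_{j0}(x)` of an affine chart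
of the blow-up has the leading form `c X_t ^ m` at `p`, `m ≥ 1`, `c ≠ 0`; this holds, with `m = 1`, if
the morphism from `Y` to the blow-up is unramified at `p` (`PointChart.isVisible_of_unramified`). -/
theorem result {σ ι J : Type} [Fintype σ] [DecidableEq σ] [Fintype ι] [Fintype J]
    [DecidableEq J] (f : ι → MvPolynomial σ ℂ) (b : Polynomial ℂ) (hb : IsFunctionalEq f b)
    (a k : J → ℕ) (χ : Finset J → ℤ) :
    (∀ s₀ : ℂ, b ≠ 0 → (∀ S, χ S ≠ 0 →
        Seen f a k {i | i ∈ S ∧ 0 < a i ∧ ((k i + 1 : ℕ) : ℂ) + (a i : ℂ) * s₀ = 0}) →
      (topZeta a k χ).denom.rootMultiplicity s₀ ≤ b.rootMultiplicity s₀) ∧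
    ((∀ s₀ : ℂ, ∀ S, χ S ≠ 0 →
        Seen f a k {i | i ∈ S ∧ 0 < a i ∧ ((k i + 1 : ℕ) : ℂ) + (a i : ℂ) * s₀ = 0}) →
      ∃ P : Polynomial ℂ, algebraMap (Polynomial ℂ) (RatFunc ℂ) b * topZeta a k χ =
        algebraMap (Polynomial ℂ) (RatFunc ℂ) P) := by
  refine ⟨fun s₀ hb0 h => top_order f b hb0 hb a k χ s₀ h, fun h => ?_⟩
  by_cases hb0 : b = 0
  · exact ⟨0, by rw [hb0, map_zero, zero_mul]⟩
  · exact mul_poly b hb0 _ fun s₀ => top_order f b hb0 hb a k χ s₀ (h s₀)

end Pool.Agent.Results.MP_ee8c61_ag.ReesStrataMixed
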