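import Mathlib
import Pool.Agent.Y230.TH.TopFin

/-!
# The strong monodromy conjecture for ideals: sums, products and Thom-Sebastiani sums

We prove the strong monodromy conjecture for topological zeta functions (every pole of `Z_I` is a root
of the Bernstein-Sato polynomial of Budur, Mustata and Saito) for all the ideals `I` in the following
class `𝓘`, which is closed under several operations. Let `𝓘` and `𝓗` be the least classes of ideals and
of hypersurfaces with the following properties.

* `𝓘` contains the powers `(x ^ m)`; all non-zero ideals of `ℂ[x, y]`; the ideals of
  `ℂ[x₀, x₁, x₂]` generated by forms of the same degree, three of which are algebraically independent;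
  the ideals generated by forms of the same degree without a common zero outside the origin; the
  ideals whose numerical data come from Rees divisors; the ideals `(f_1, …, f_k)` in any number of
  variables with very general coefficients at the vertices of the Newton polytopes of the `f_i` and
  arbitrary other coefficients; the principal ideals `(h)` with `h` in `𝓗`; and `𝓘` is closed under
  SUMS `I(x) + J(z)` and products `I(x) J(z)` in disjoint sets of variables.
* `𝓗` contains all plane curves and the polynomials with very general coefficients at the
  vertices of the Newton polytope and arbitrary other terms; for `(f_j)` in `𝓘` and `g` in `𝓗` it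
  contains `∑ y_j f_j(x)` and `∑ y_j f_j(x) + g(z)`, with new variables `y_j`; and `𝓗` is closed
  under products in disjoint sets of variables and under dropping variables which do not occur.

For example: `I(x₁, x₂) + J(x₃, x₄) + (z^m)`, `(y_1 f_1(x₁, x₂) + … + y_r f_r(x₁, x₂) + g(z₁, z₂)) + J(u, v)`
with arbitrary ideals `I`, `J` of the polynomial ring in two variables and arbitrary `f_j`, `g`, and so on.

The poles of the zeta function of a sum `I(x) + J(z)` are the sums `α + β` of a pole of `Z_I` and a pole
of `Z_J`, with the orders of a Hadamard type product (see `Pool/Agent/Y229/LPDefs`), and `α + β` is a root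
of `b_{I+J}` if `α` is one of `b_I` and `β` one of `b_J`; for `∑ y_j f_j(x) + g(z)` the microlocal
description of the roots of `b(s) / (s + 1)` is used. The hypersurface result
`MP_504089_ag.ThomSebastianiGlobal` gives, by the theorem of Mustata on `∑ y_j f_j(x)`, the poles
`≠ -1` of `Z_I`; for the pole `-1` it gives no information.
-/

set_option autoImplicit false

namespace Pool.Agent.Results.MP_ee8c61_ag.SumsProductsThomSebastiani

open Pool.Agent.W574.SM Pool.Agent.W574.RO Pool.Agent.Y228.AT Pool.Agent.Y230.TH

/-- **The strong monodromy conjecture for a class of ideals closed under sums and products in
disjoint sets of variables and under the formation of Thom-Sebastiani sums `∑ y_j f_j(x) + g(z)`.**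

A family `A : Fam` is a finite family `A.f` of generators of an ideal in the polynomial ring over `ℂ`
with the variables `A.σ`. `TT AllGlobal StrongHyp false A Z` (ideals) and `TT AllGlobal StrongHyp true A Z`
(principal ideals) are the classes of ideals with their topological zeta functions `Z` which are
obtained from the ideals in `AllGlobal` and the hypersurfaces in `StrongHyp` by sums and products in
disjoint sets of variables, by `∑ y_j f_j(x)` and by `∑ y_j f_j(x) + g(z)`.

Let `b` be any polynomial which satisfies a functional equation of the family `A.f`
(`IsFunctionalEq`, the equation in the definition of the Bernstein-Sato polynomial `b_I`; `b_I` is one of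
these polynomials). Then `b(s₀) = 0` for every pole `s₀` of `Z`. -/
theorem result (A : Fam) (Z : RatFunc ℂ) (h : TT AllGlobal StrongHyp false A Z)
    (b : Polynomial ℂ) (hb : IsFunctionalEq A.f b) (s₀ : ℂ) (hs : Z.denom.eval s₀ = 0) :
    b.eval s₀ = 0 :=
  tt_ideal A Z h b hb s₀ hs

end Pool.Agent.Results.MP_ee8c61_ag.SumsProductsThomSebastiani
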